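import Mathlib

/-!
# Project CL (helper718): closed and locally closed subsets of the complex affine space without
tangent vectors are finite
-/

set_option autoImplicit false

open MvPolynomial

namespace Pool.Agent.Y151.CL

section point
variable {κ : Type} [Fintype κ]

/-- the ideal of the point `x` -/
noncomputable def mI (x : κ → ℂ) : Ideal (MvPolynomial κ ℂ) :=
  Ideal.span (Set.range fun i => X i - C (x i))

theorem gen_mem (x : κ → ℂ) (i : κ) : X i - C (x i) ∈ mI x :=
  Ideal.subset_span ⟨i, rfl⟩

/-- Taylor expansion -/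
theorem taylor (x : κ → ℂ) (P : MvPolynomial κ ℂ) :
    P - C (eval x P) - ∑ i, (eval x (pderiv i P)) • (X i - C (x i)) ∈ mI x ^ 2 := by
  classical
  induction P using MvPolynomial.induction_on with
  | C a => simp
  | add p q hp hq =>
    have e := add_mem hp hq
    convert e using 1
    simp only [map_add, add_smul, Finset.sum_add_distrib]
    ring
  | mul_X p j hp =>
    have e1 : (p - C (eval x p) - ∑ i, (eval x (pderiv i p)) • (X i - C (x i))) * X j ∈ mI x ^ 2 :=
      Ideal.mul_mem_right _ _ hp
    have e2 : (∑ i, (eval x (pderiv i p)) • (X i - C (x i))) * (X j - C (x j)) ∈ mI x ^ 2 := by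
      rw [pow_two]
      refine Ideal.mul_mem_mul ?_ (gen_mem x j)
      refine Ideal.sum_mem _ fun i _ => ?_
      rw [smul_eq_C_mul]
      exact Ideal.mul_mem_left _ _ (gen_mem x i)
    have e := add_mem e1 e2
    convert e using 1
    have h1 : ∑ i, (eval x (pderiv i (p * X j))) • (X i - C (x i)) =
        C (x j) * ∑ i, (eval x (pderiv i p)) • (X i - C (x i)) +
          C (eval x p) * (X j - C (x j)) := by
      have h2 : ∀ i, (eval x (pderiv i (p * X j))) • (X i - C (x i)) =
          C (x j) * ((eval x (pderiv i p)) • (X i - C (x i))) +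
            if i = j then C (eval x p) * (X j - C (x j)) else 0 := by
        intro i
        rw [Derivation.leibniz, pderiv_X]
        by_cases h : i = j
        · subst h
          simp only [if_true, smul_eq_mul, Pi.single_eq_same, mul_one, map_add, map_mul, eval_X,
            smul_eq_C_mul]
          ring
        · have h0 : (Pi.single i (1 : MvPolynomial κ ℂ) : κ → MvPolynomial κ ℂ) j = 0 :=
            Pi.single_eq_of_ne (Ne.symm h) _
          rw [h0]
          simp only [if_neg h, smul_eq_mul, mul_zero, map_add, map_mul, eval_X, map_zero, zero_add,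
            smul_eq_C_mul, add_zero]
          ring
      rw [Finset.sum_congr rfl fun i _ => h2 i, Finset.sum_add_distrib, Finset.mul_sum,
        Finset.sum_ite_eq' Finset.univ j, if_pos (Finset.mem_univ j)]
    rw [h1, map_mul, eval_X, map_mul]
    ring

theorem aev (x : κ → ℂ) (P : MvPolynomial κ ℂ) : aeval x P = eval x P := by
  rw [← coe_aeval_eq_eval]
  rfl

theorem mI_eq (x : κ → ℂ) : mI x = vanishingIdeal ℂ {x} := by
  apply le_antisymm
  · rw [mI, Ideal.span_le]
    rintro _ ⟨i, rfl⟩
    rw [SetLike.mem_coe, mem_vanishingIdeal_singleton_iff]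
    simp
  · intro P hP
    rw [mem_vanishingIdeal_singleton_iff, aev] at hP
    have h := taylor x P
    rw [hP, map_zero, sub_zero] at h
    have h2 : ∑ i, (eval x (pderiv i P)) • (X i - C (x i)) ∈ mI x := by
      refine Ideal.sum_mem _ fun i _ => ?_
      rw [smul_eq_C_mul]
      exact Ideal.mul_mem_left _ _ (gen_mem x i)
    have h3 := add_mem (Ideal.pow_le_self two_ne_zero h) h2
    rwa [sub_add_cancel] at h3

theorem mI_le (S : Set (MvPolynomial κ ℂ)) (x : κ → ℂ) (hx : ∀ P ∈ S, eval x P = 0)
    (ht : ∀ v : κ → ℂ, (∀ P ∈ S, ∑ i, eval x (pderiv i P) * v i = 0) → v = 0) :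
    mI x ≤ mI x ^ 2 ⊔ Ideal.span S := by
  classical
  set U : Submodule ℂ (κ → ℂ) := Submodule.comap
    (Fintype.linearCombination ℂ (fun i => (X i - C (x i) : MvPolynomial κ ℂ)))
    ((mI x ^ 2 ⊔ Ideal.span S).restrictScalars ℂ) with hU
  set W : Submodule ℂ (κ → ℂ) := Submodule.span ℂ
    {w | ∃ P ∈ S, w = fun i => eval x (pderiv i P)} with hW
  have hWU : W ≤ U := by
    rw [hW, Submodule.span_le]
    rintro _ ⟨P, hP, rfl⟩
    rw [SetLike.mem_coe, hU, Submodule.mem_comap, Submodule.restrictScalars_mem,
      Fintype.linearCombination_apply]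
    have h := taylor x P
    rw [hx P hP, map_zero, sub_zero] at h
    have h2 : P ∈ mI x ^ 2 ⊔ Ideal.span S :=
      (le_sup_right : Ideal.span S ≤ _) (Ideal.subset_span hP)
    have h3 := sub_mem h2 ((le_sup_left : mI x ^ 2 ≤ mI x ^ 2 ⊔ Ideal.span S) h)
    rwa [sub_sub_cancel] at h3
  have hWt : W = ⊤ := by
    by_contra hne
    obtain ⟨f, hf, hWf⟩ := Submodule.exists_le_ker_of_lt_top W (lt_top_iff_ne_top.2 hne)
    have hv := ht (fun i => f (fun j => if i = j then 1 else 0)) (by
      intro P hP
      have h1 : f (fun i => eval x (pderiv i P)) = 0 := by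
        have := hWf (Submodule.subset_span ⟨P, hP, rfl⟩ :
          (fun i => eval x (pderiv i P)) ∈ W)
        exact this
      rw [LinearMap.pi_apply_eq_sum_univ f] at h1
      simpa [smul_eq_mul] using h1)
    apply hf
    ext i
    rw [LinearMap.comp_apply, LinearMap.pi_apply_eq_sum_univ f]
    have : ∀ j, f (fun k => if j = k then 1 else 0) = 0 := fun j => congrFun hv j
    simp [this]
  rw [mI, Ideal.span_le]
  rintro _ ⟨i, rfl⟩
  have h : (Pi.single i 1 : κ → ℂ) ∈ U := hWU (by rw [hWt]; trivial)
  rw [hU, Submodule.mem_comap, Submodule.restrictScalars_mem,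
    Fintype.linearCombination_apply_single, one_smul] at h
  exact h

end point

theorem fnt_core (κ : Type) [Fintype κ] (S : Set (MvPolynomial κ ℂ))
    (hS : ∀ x : κ → ℂ, (∀ P ∈ S, eval x P = 0) → ∀ v : κ → ℂ,
      (∀ P ∈ S, ∑ i, eval x (pderiv i P) * v i = 0) → v = 0) :
    {x : κ → ℂ | ∀ P ∈ S, eval x P = 0}.Finite := by
  classical
  set I : Ideal (MvPolynomial κ ℂ) := Ideal.span S with hI
  have hmk : Function.Surjective (Ideal.Quotient.mk I) := Ideal.Quotient.mk_surjective
  have hid : ∀ m : Ideal (MvPolynomial κ ℂ ⧸ I), m.IsMaximal →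
      ∃ e, IsIdempotentElem e ∧ m = Ideal.span {e} := by
    intro m hm
    have hM : (m.comap (Ideal.Quotient.mk I)).IsMaximal :=
      Ideal.comap_isMaximal_of_surjective _ hmk
    obtain ⟨x, hx⟩ := isMaximal_iff_eq_vanishingIdeal_singleton.1 hM
    have hxS : ∀ P ∈ S, eval x P = 0 := by
      intro P hP
      have h1 : P ∈ m.comap (Ideal.Quotient.mk I) := by
        rw [Ideal.mem_comap, Ideal.Quotient.eq_zero_iff_mem.2 (Ideal.subset_span hP)]
        exact m.zero_mem
      rw [hx, mem_vanishingIdeal_singleton_iff, aev] at h1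
      exact h1
    have h2 := mI_le S x hxS (hS x hxS)
    rw [mI_eq, ← hx, ← hI] at h2
    have h3 := Ideal.map_mono (f := Ideal.Quotient.mk I) h2
    rw [Ideal.map_sup, Ideal.map_pow, Ideal.map_comap_of_surjective _ hmk,
      Ideal.map_quotient_self, sup_bot_eq] at h3
    have h4 : IsIdempotentElem m := by
      rw [pow_two] at h3
      exact le_antisymm Ideal.mul_le_right h3
    exact (Ideal.isIdempotentElem_iff_of_fg m (IsNoetherian.noetherian m)).1 h4
  have hK : Ring.KrullDimLE 0 (MvPolynomial κ ℂ ⧸ I) := by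
    rw [Ring.krullDimLE_zero_iff]
    intro p hp
    obtain ⟨m, hm, hpm⟩ := Ideal.exists_le_maximal p hp.ne_top
    obtain ⟨e, he, hme⟩ := hid m hm
    have hem : e ∈ m := by rw [hme]; exact Ideal.mem_span_singleton_self e
    have h0 : e * (1 - e) ∈ p := by
      have : e * (1 - e) = 0 := by rw [mul_sub, mul_one, he.eq, sub_self]
      rw [this]
      exact p.zero_mem
    have hep : e ∈ p := by
      rcases hp.mem_or_mem h0 with h | h
      · exact h
      · exfalso
        apply hm.ne_top
        rw [Ideal.eq_top_iff_one]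
        have := add_mem (hpm h) hem
        rwa [sub_add_cancel] at this
    have : p = m := le_antisymm hpm (by
      rw [hme, Ideal.span_singleton_le_iff_mem]
      exact hep)
    rw [this]
    exact hm
  have hA : IsArtinianRing (MvPolynomial κ ℂ ⧸ I) := isArtinianRing_iff_krullDimLE_zero.2 hK
  have hfin : Finite (MaximalSpectrum (MvPolynomial κ ℂ ⧸ I)) := inferInstance
  have hl : ∀ x ∈ {x : κ → ℂ | ∀ P ∈ S, eval x P = 0}, ∀ a ∈ I, eval x a = 0 := by
    intro x hx a ha
    have : I ≤ RingHom.ker (eval x) := by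
      rw [hI, Ideal.span_le]
      intro P hP
      exact hx P hP
    exact this ha
  let F : {x : κ → ℂ | ∀ P ∈ S, eval x P = 0} → MaximalSpectrum (MvPolynomial κ ℂ ⧸ I) :=
    fun x => ⟨RingHom.ker (Ideal.Quotient.lift I (eval x.1) (hl x.1 x.2)),
      RingHom.ker_isMaximal_of_surjective _ (fun c =>
        ⟨Ideal.Quotient.mk I (C c), by rw [Ideal.Quotient.lift_mk, eval_C]⟩)⟩
  have hF : Function.Injective F := by
    intro x y hxy
    have h1 : RingHom.ker (Ideal.Quotient.lift I (eval x.1) (hl x.1 x.2)) =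
        RingHom.ker (Ideal.Quotient.lift I (eval y.1) (hl y.1 y.2)) :=
      congrArg MaximalSpectrum.asIdeal hxy
    apply Subtype.ext
    funext i
    have h2 : Ideal.Quotient.mk I (X i - C (x.1 i)) ∈
        RingHom.ker (Ideal.Quotient.lift I (eval x.1) (hl x.1 x.2)) := by
      rw [RingHom.mem_ker, Ideal.Quotient.lift_mk]
      simp
    rw [h1, RingHom.mem_ker, Ideal.Quotient.lift_mk, map_sub, eval_X, eval_C, sub_eq_zero] at h2
    exact h2.symm
  have : Finite {x : κ → ℂ | ∀ P ∈ S, eval x P = 0} := Finite.of_injective F hF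
  exact Set.toFinite _

theorem loc_one (κ : Type) [Fintype κ] (S : Set (MvPolynomial κ ℂ)) (g : MvPolynomial κ ℂ)
    (hS : ∀ x : κ → ℂ, (∀ P ∈ S, eval x P = 0) → eval x g ≠ 0 → ∀ v : κ → ℂ,
      (∀ P ∈ S, ∑ i, eval x (pderiv i P) * v i = 0) → v = 0) :
    {x : κ → ℂ | (∀ P ∈ S, eval x P = 0) ∧ eval x g ≠ 0}.Finite := by
  classical
  have hren : ∀ (y : Option κ → ℂ) (P : MvPolynomial κ ℂ),
      eval y (rename some P) = eval (fun i => y (some i)) P := by
    intro y P
    rw [eval_rename]
    rfl
  have hd1 : ∀ (P : MvPolynomial κ ℂ) (i : κ),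
      pderiv (some i) (rename some P) = rename some (pderiv i P) := by
    intro P i
    rw [pderiv_rename (Option.some_injective κ)]
  have hd0 : ∀ (P : MvPolynomial κ ℂ),
      pderiv (none : Option κ) (rename some P) = 0 := by
    intro P
    apply pderiv_eq_zero_of_notMem_vars
    intro h
    obtain ⟨i, -, hi⟩ := Finset.mem_image.1 (vars_rename some P h)
    exact Option.some_ne_none i hi
  have hfin := fnt_core (Option κ)
    ((rename some) '' S ∪ {X none * rename some g - 1}) (by
      intro y hy v hv
      set x : κ → ℂ := fun i => y (some i) with hxdef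
      have hx : ∀ P ∈ S, eval x P = 0 := by
        intro P hP
        have := hy _ (Or.inl ⟨P, hP, rfl⟩)
        rwa [hren] at this
      have hg1 : y none * eval x g = 1 := by
        have := hy _ (Or.inr rfl)
        rw [map_sub, map_mul, eval_X, hren, map_one, sub_eq_zero] at this
        exact this
      have hg : eval x g ≠ 0 := by
        intro h
        rw [h, mul_zero] at hg1
        exact zero_ne_one hg1
      have hv1 : (fun i => v (some i)) = 0 := by
        apply hS x hx hg
        intro P hP
        have := hv _ (Or.inl ⟨P, hP, rfl⟩)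
        rw [Fintype.sum_option, hd0, map_zero, zero_mul, zero_add] at this
        rw [← this]
        refine Finset.sum_congr rfl fun i _ => ?_
        rw [hd1, hren]
      have hv2 := hv _ (Or.inr rfl)
      rw [Fintype.sum_option] at hv2
      have h3 : ∀ i, v (some i) = 0 := fun i => congrFun hv1 i
      have h4 : v none = 0 := by
        simp only [h3, mul_zero, Finset.sum_const_zero, add_zero] at hv2
        rw [map_sub, Derivation.leibniz, hd0, pderiv_X_self, pderiv_one] at hv2
        simp only [smul_eq_mul, mul_zero, mul_one, zero_add, sub_zero, hren] at hv2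
        rcases mul_eq_zero.1 hv2 with h | h
        · exact absurd h hg
        · exact h
      funext i
      rcases i with _ | i
      · exact h4
      · exact h3 i)
  refine Set.Finite.subset (hfin.image fun y i => y (some i)) ?_
  rintro x ⟨hx, hg⟩
  refine ⟨fun o => o.elim (eval x g)⁻¹ x, ?_, rfl⟩
  rintro P (⟨P, hP, rfl⟩ | hP)
  · rw [hren]
    exact hx P hP
  · rw [Set.mem_singleton_iff] at hP
    rw [hP, map_sub, map_mul, eval_X, hren, map_one, sub_eq_zero]
    exact inv_mul_cancel₀ hg

theorem loc_core (κ : Type) [Fintype κ] (S G : Set (MvPolynomial κ ℂ))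
    (hS : ∀ x : κ → ℂ, (∀ P ∈ S, eval x P = 0) → (∃ g ∈ G, eval x g ≠ 0) → ∀ v : κ → ℂ,
      (∀ P ∈ S, ∑ i, eval x (pderiv i P) * v i = 0) → v = 0) :
    {x : κ → ℂ | (∀ P ∈ S, eval x P = 0) ∧ ∃ g ∈ G, eval x g ≠ 0}.Finite := by
  classical
  obtain ⟨G', hG', hGs⟩ := (Submodule.fg_span_iff_fg_span_finset_subset G).1
    (IsNoetherian.noetherian (Ideal.span G))
  refine Set.Finite.subset (Set.Finite.biUnion G'.finite_toSet fun g hg =>
    loc_one κ S g fun x hx hgx v hv => hS x hx ⟨g, hG' hg, hgx⟩ v hv) ?_
  rintro x ⟨hx, g, hg, hgx⟩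
  rw [Set.mem_iUnion₂]
  by_contra hcon
  push Not at hcon
  have h1 : Ideal.span G ≤ RingHom.ker (eval x) := by
    have : Ideal.span G = Ideal.span (G' : Set (MvPolynomial κ ℂ)) := hGs
    rw [this, Ideal.span_le]
    intro g' hg'
    by_contra hne
    exact hcon g' hg' ⟨hx, hne⟩
  exact hgx (h1 (Ideal.subset_span hg))

end Pool.Agent.Y151.CL
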