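import Pool.Agent.Y718.CL.Stm
import Pool.Agent.Y151.CL.Core

/-!
# Project CL (helper718): the tasks FNT and LOC
-/

set_option autoImplicit false

namespace Pool.Agent.Y151.CL

theorem fnt : Pool.Agent.Y718.CL.S_FNT := fun κ _ S hS => fnt_core κ S hS

theorem loc' : Pool.Agent.Y718.CL.S_LOC := fun κ _ S G hS => loc_core κ S G hS

theorem loc : Pool.Agent.Y718.CL.S_FNT → Pool.Agent.Y718.CL.S_LOC := fun _ => loc'

end Pool.Agent.Y151.CL
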